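import Pool.Agent.H99.GB.Fex

/-!
# [H99 GB FOUR]  the fourth moment of the test function

PROOF. `G^2 = D + 2 O`, `D = ∑_q ph^2 ≤ |Q|` (`|ph| ≤ 1`), `O = ∑_{q1 < q2} ph(q1) ph(q2)`, `G^4 ≤ 2 D^2 + 8 O^2`.
`ph H q x = ∑_{k=1}^{q-1} c(q,k) e(kx/q)` (period `q`, mean `0`), `∑_k |c(q,k)|^2 = (1/q) ∑_{x mod q} ph^2 ≤ 1`.
`O(x) = ∑ c(q1,k1) c(q2,k2) e(x (k1/q1 + k2/q2))`; two different fractions (different quadruples `(q1,k1,q2,k2)`, `q1 < q2`,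
`1 ≤ ki < qi`) differ modulo `1` by at least `1/(q1 q2 q1' q2') ≥ 1/(16 R^4)`: their difference is `a/(q1 q2 q1' q2')`, and it is
no integer (reduced denominators `q1 q2`, `q1' q2'`, then the partial fractions). `Pool.Agent.H24.AB.large_sieve`:
`∑_x |O|^2 ≤ 10 (X + 16 R^4) ∑ |c|^2|c|^2 ≤ 10 (X + 16 R^4) |Q|^2`.
-/

set_option autoImplicit false

namespace Pool.Agent.H99.GB

open Finset Pool.Agent.H67.VS Pool.Agent.H24.AB

/-- fractions with prime denominators -/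
def PF (Q : Finset ℕ) : Finset (Σ _ : ℕ, ℕ) := Q.sigma (fun q => Ico 1 q)

/-- pairs of fractions -/
def PP (Q : Finset ℕ) : Finset ((Σ _ : ℕ, ℕ) × (Σ _ : ℕ, ℕ)) :=
  ((PF Q) ×ˢ (PF Q)).filter (fun i => i.1.1 < i.2.1)

/-- the frequency -/
noncomputable def fr (z : Σ _ : ℕ, ℕ) : ℝ := (z.2 : ℝ) / z.1

private lemma four_ndvd {q1 q2 a1 a2 : ℕ} (h1 : q1.Prime) (h2 : q2.Prime) (hne : q1 ≠ q2)
    (ha0 : 1 ≤ a1) (ha : a1 < q1) : ¬ ((q1 : ℤ) ∣ (a1 : ℤ) * q2 + (a2 : ℤ) * q1) := by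
  intro h
  have h3 : (q1 : ℤ) ∣ (a1 : ℤ) * q2 := by
    have := dvd_sub h (Dvd.intro_left (a2 : ℤ) rfl : (q1 : ℤ) ∣ (a2 : ℤ) * q1)
    simpa using this
  have h4 : q1 ∣ a1 * q2 := by exact_mod_cast h3
  rcases (Nat.Prime.dvd_mul h1).1 h4 with h5 | h5
  · exact absurd (Nat.le_of_dvd ha0 h5) (by omega)
  · exact hne ((Nat.prime_dvd_prime_iff_eq h1 h2).1 h5)

/-- equality of residues from the numerators -/
private lemma four_res {q1 q2 a1 a2 b1 b2 : ℕ} (h1 : q1.Prime) (h2 : q2.Prime) (hne : q1 ≠ q2)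
    (ha : a1 < q1) (hb : b1 < q1)
    (h : (q1 : ℤ) ∣ ((a1 : ℤ) * q2 + (a2 : ℤ) * q1) - ((b1 : ℤ) * q2 + (b2 : ℤ) * q1)) : a1 = b1 := by
  have h3 : (q1 : ℤ) ∣ ((a1 : ℤ) - b1) * q2 := by
    have h4 : ((a1 : ℤ) - b1) * q2 = (((a1 : ℤ) * q2 + (a2 : ℤ) * q1) - ((b1 : ℤ) * q2 + (b2 : ℤ) * q1)) -
        ((a2 : ℤ) - b2) * q1 := by ring
    rw [h4]
    exact dvd_sub h (Dvd.intro_left _ rfl)
  have h5 : (q1 : ℤ) ∣ (a1 : ℤ) - b1 := by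
    have hc : IsCoprime (q1 : ℤ) (q2 : ℤ) := by
      rw [Nat.isCoprime_iff_coprime]
      exact (Nat.coprime_primes h1 h2).2 hne
    exact hc.dvd_of_dvd_mul_right h3
  have h6 : (a1 : ℤ) - b1 = 0 := by
    apply Int.eq_zero_of_abs_lt_dvd h5
    rw [abs_lt]
    constructor <;> omega
  omega

private lemma four_space (R : ℕ) (hR : 1 ≤ R) (i j : (Σ _ : ℕ, ℕ) × (Σ _ : ℕ, ℕ))
    (hi : i ∈ PP (QQ R)) (hj : j ∈ PP (QQ R)) (hij : i ≠ j) (k : ℤ) :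
    1 / (16 * (R : ℝ) ^ 4) ≤ |(fr i.1 + fr i.2) - (fr j.1 + fr j.2) - k| := by
  obtain ⟨⟨q1, a1⟩, ⟨q2, a2⟩⟩ := i
  obtain ⟨⟨r1, b1⟩, ⟨r2, b2⟩⟩ := j
  simp only [PP, PF, QQ, mem_filter, mem_product, mem_sigma, mem_Ico, mem_Ioc] at hi hj
  obtain ⟨⟨⟨⟨⟨hq1R, hq1R'⟩, hq1⟩, ha1, ha1'⟩, ⟨⟨hq2R, hq2R'⟩, hq2⟩, ha2, ha2'⟩, hq12⟩ := hi
  obtain ⟨⟨⟨⟨⟨hr1R, hr1R'⟩, hr1⟩, hb1, hb1'⟩, ⟨⟨hr2R, hr2R'⟩, hr2⟩, hb2, hb2'⟩, hr12⟩ := hj
  have p1 : (0 : ℝ) < q1 := by exact_mod_cast hq1.pos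
  have p2 : (0 : ℝ) < q2 := by exact_mod_cast hq2.pos
  have p3 : (0 : ℝ) < r1 := by exact_mod_cast hr1.pos
  have p4 : (0 : ℝ) < r2 := by exact_mod_cast hr2.pos
  set M : ℤ := ((a1 : ℤ) * q2 + (a2 : ℤ) * q1) * (r1 * r2) - ((b1 : ℤ) * r2 + (b2 : ℤ) * r1) * (q1 * q2) -
    k * (q1 * q2 * (r1 * r2)) with hM
  have hMr : ((a1 : ℝ) / q1 + (a2 : ℝ) / q2) - ((b1 : ℝ) / r1 + (b2 : ℝ) / r2) - k =
      (M : ℝ) / (q1 * q2 * (r1 * r2)) := by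
    rw [hM]
    push_cast
    field_simp
  have hM0 : M ≠ 0 := by
    intro h0
    have hA : ((a1 : ℤ) * q2 + (a2 : ℤ) * q1) * (r1 * r2) =
        (q1 * q2) * (((b1 : ℤ) * r2 + (b2 : ℤ) * r1) + k * (r1 * r2)) := by
      have : M = 0 := h0
      rw [hM] at this
      linear_combination this
    have hq1Z : Prime (q1 : ℤ) := Nat.prime_iff_prime_int.1 hq1
    have hq2Z : Prime (q2 : ℤ) := Nat.prime_iff_prime_int.1 hq2
    have d1 : (q1 : ℤ) ∣ (r1 : ℤ) * r2 := by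
      have h3 : (q1 : ℤ) ∣ ((a1 : ℤ) * q2 + (a2 : ℤ) * q1) * (r1 * r2) := by
        rw [hA]
        exact Dvd.dvd.mul_right (Dvd.intro _ rfl) _
      rcases hq1Z.dvd_or_dvd h3 with h4 | h4
      · exact absurd h4 (four_ndvd hq1 hq2 hq12.ne ha1 ha1')
      · exact h4
    have d2 : (q2 : ℤ) ∣ (r1 : ℤ) * r2 := by
      have h3 : (q2 : ℤ) ∣ ((a1 : ℤ) * q2 + (a2 : ℤ) * q1) * (r1 * r2) := by
        rw [hA]
        exact Dvd.dvd.mul_right (Dvd.intro_left _ rfl) _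
      rcases hq2Z.dvd_or_dvd h3 with h4 | h4
      · rw [add_comm] at h4
        exact absurd h4 (four_ndvd hq2 hq1 hq12.ne' ha2 ha2')
      · exact h4
    have g1 : q1 = r1 ∨ q1 = r2 := by
      have h3 : q1 ∣ r1 * r2 := by exact_mod_cast d1
      rcases (Nat.Prime.dvd_mul hq1).1 h3 with h4 | h4
      · exact Or.inl ((Nat.prime_dvd_prime_iff_eq hq1 hr1).1 h4)
      · exact Or.inr ((Nat.prime_dvd_prime_iff_eq hq1 hr2).1 h4)
    have g2 : q2 = r1 ∨ q2 = r2 := by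
      have h3 : q2 ∣ r1 * r2 := by exact_mod_cast d2
      rcases (Nat.Prime.dvd_mul hq2).1 h3 with h4 | h4
      · exact Or.inl ((Nat.prime_dvd_prime_iff_eq hq2 hr1).1 h4)
      · exact Or.inr ((Nat.prime_dvd_prime_iff_eq hq2 hr2).1 h4)
    have g3 : q1 = r1 ∧ q2 = r2 := by omega
    obtain ⟨rfl, rfl⟩ := g3
    have hB : ((a1 : ℤ) * q2 + (a2 : ℤ) * q1) - ((b1 : ℤ) * q2 + (b2 : ℤ) * q1) = k * (q1 * q2) := by
      have hne : ((q1 : ℤ) * q2) ≠ 0 := mul_ne_zero hq1Z.ne_zero hq2Z.ne_zero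
      apply mul_left_cancel₀ hne
      linear_combination hA
    have e1 : a1 = b1 := by
      refine four_res hq1 hq2 hq12.ne ha1' hb1' (a2 := a2) (b2 := b2) ?_
      rw [hB]
      exact ⟨k * q2, by ring⟩
    have e2 : a2 = b2 := by
      refine four_res hq2 hq1 hq12.ne' ha2' hb2' (a2 := a1) (b2 := b1) ?_
      refine ⟨k * q1, ?_⟩
      linear_combination hB
    subst e1
    subst e2
    exact hij rfl
  have hM1 : (1 : ℝ) ≤ |(M : ℝ)| := by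
    have : (1 : ℤ) ≤ |M| := Int.one_le_abs hM0
    exact_mod_cast this
  show 1 / (16 * (R : ℝ) ^ 4) ≤ |((a1 : ℝ) / q1 + (a2 : ℝ) / q2) - ((b1 : ℝ) / r1 + (b2 : ℝ) / r2) - k|
  rw [hMr, abs_div, abs_of_pos (by positivity : (0 : ℝ) < (q1 : ℝ) * q2 * (r1 * r2))]
  have c1 : (q1 : ℝ) ≤ 2 * R := by exact_mod_cast hq1R'
  have c2 : (q2 : ℝ) ≤ 2 * R := by exact_mod_cast hq2R'
  have c3 : (r1 : ℝ) ≤ 2 * R := by exact_mod_cast hr1R'
  have c4 : (r2 : ℝ) ≤ 2 * R := by exact_mod_cast hr2R'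
  have hprod : (q1 : ℝ) * q2 * (r1 * r2) ≤ 16 * (R : ℝ) ^ 4 := by
    calc (q1 : ℝ) * q2 * (r1 * r2) ≤ (2 * R) * (2 * R) * ((2 * R) * (2 * R)) := by gcongr
      _ = 16 * (R : ℝ) ^ 4 := by ring
  exact div_le_div₀ (abs_nonneg _) hM1 (by positivity) hprod

private lemma four_O (R H x : ℕ) :
    ((∑ q ∈ QQ R, ∑ r ∈ QQ R, (if q < r then ph H q x * ph H r x else 0) : ℝ) : ℂ) =
      ∑ i ∈ PP (QQ R), (fc H i.1 * fc H i.2) * ee ((x : ℝ) * (fr i.1 + fr i.2)) := by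
  unfold PP PF
  rw [Finset.sum_filter, Finset.sum_product, Finset.sum_sigma]
  push_cast
  refine Finset.sum_congr rfl fun q hq => ?_
  have hq0 : 0 < q := by
    unfold QQ at hq
    rw [mem_filter] at hq
    exact hq.2.pos
  have h1 : ∀ a ∈ Ico 1 q, ∑ w ∈ (QQ R).sigma (fun q => Ico 1 q),
      (if (⟨q, a⟩ : Σ _ : ℕ, ℕ).1 < w.1 then fc H ⟨q, a⟩ * fc H w * ee ((x : ℝ) * (fr ⟨q, a⟩ + fr w)) else 0) =
      ∑ r ∈ QQ R, (if q < r then (fc H ⟨q, a⟩ * ee ((x : ℝ) * ((a : ℝ) / q))) * ((ph H r x : ℝ) : ℂ) else 0) := by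
    intro a _
    rw [Finset.sum_sigma]
    refine Finset.sum_congr rfl fun r hr => ?_
    have hr0 : 0 < r := by
      unfold QQ at hr
      rw [mem_filter] at hr
      exact hr.2.pos
    split_ifs with hqr
    · rw [fex_exp H r x hr0, Finset.mul_sum]
      refine Finset.sum_congr rfl fun b _ => ?_
      unfold fr
      rw [mul_add, ee_add]
      ring
    · exact Finset.sum_eq_zero fun b _ => rfl
  rw [Finset.sum_congr rfl h1, Finset.sum_comm]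
  refine Finset.sum_congr rfl fun r _ => ?_
  split_ifs with hqr
  · rw [Complex.ofReal_mul, fex_exp H q x hq0, Finset.sum_mul]
  · simp

private lemma four_sq (s : Finset ℕ) (f : ℕ → ℝ) :
    (∑ q ∈ s, f q) ^ 2 = ∑ q ∈ s, (f q) ^ 2 + 2 * ∑ q ∈ s, ∑ r ∈ s, (if q < r then f q * f r else 0) := by
  rw [sq, Finset.sum_mul_sum]
  have h1 : ∀ q ∈ s, ∑ r ∈ s, f q * f r = (f q) ^ 2 + ∑ r ∈ s, (if q < r then f q * f r else 0) +
      ∑ r ∈ s, (if r < q then f r * f q else 0) := by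
    intro q hq
    have h2 : (f q) ^ 2 = ∑ r ∈ s, (if q = r then f q * f r else 0) := by
      rw [Finset.sum_ite_eq, if_pos hq, sq]
    rw [h2, ← Finset.sum_add_distrib, ← Finset.sum_add_distrib]
    refine Finset.sum_congr rfl fun r _ => ?_
    rcases lt_trichotomy q r with h | h | h
    · rw [if_neg h.ne, if_pos h, if_neg (by omega)]
      ring
    · subst h
      simp
    · rw [if_neg h.ne', if_neg (by omega), if_pos h]
      ring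
  rw [Finset.sum_congr rfl h1, Finset.sum_add_distrib, Finset.sum_add_distrib]
  have h3 : ∑ q ∈ s, ∑ r ∈ s, (if r < q then f r * f q else 0) =
      ∑ q ∈ s, ∑ r ∈ s, (if q < r then f q * f r else 0) := Finset.sum_comm
  rw [h3]
  ring

theorem four (X H R : ℕ) (hX : 1 ≤ X) (hR : 1 ≤ R) :
    ∑ x ∈ Ioc X (2 * X), (G (QQ R) H x) ^ 4 ≤ 100 * ((X : ℝ) + 16 * (R : ℝ) ^ 4) * ((QQ R).card : ℝ) ^ 2 := by
  set N : ℝ := ((QQ R).card : ℝ) with hN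
  have hN0 : 0 ≤ N := Nat.cast_nonneg _
  have hRr : (1 : ℝ) ≤ R := by exact_mod_cast hR
  set O : ℕ → ℝ := fun x => ∑ q ∈ QQ R, ∑ r ∈ QQ R, (if q < r then ph H q x * ph H r x else 0) with hO
  have hδ : 0 < 1 / (16 * (R : ℝ) ^ 4) := by positivity
  have hδ1 : 1 / (16 * (R : ℝ) ^ 4) ≤ 1 := by
    rw [div_le_one (by positivity)]
    have : (1 : ℝ) ≤ (R : ℝ) ^ 4 := one_le_pow₀ hRr
    linarith
  have hls := large_sieve (PP (QQ R)) (fun i => fr i.1 + fr i.2) (fun i => fc H i.1 * fc H i.2)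
    (1 / (16 * (R : ℝ) ^ 4)) hδ hδ1 (fun i hi j hj hij k => four_space R hR i j hi hj hij k) X X hX
  have e1 : ∀ x : ℕ, ‖∑ i ∈ PP (QQ R), (fc H i.1 * fc H i.2) * ee ((x : ℝ) * (fr i.1 + fr i.2))‖ ^ 2 =
      (O x) ^ 2 := by
    intro x
    rw [← four_O R H x, Complex.norm_real, Real.norm_eq_abs, sq_abs]
  have e2 : ∑ i ∈ PP (QQ R), ‖fc H i.1 * fc H i.2‖ ^ 2 ≤ N ^ 2 := by
    unfold PP
    calc ∑ i ∈ ((PF (QQ R)) ×ˢ (PF (QQ R))).filter (fun i => i.1.1 < i.2.1), ‖fc H i.1 * fc H i.2‖ ^ 2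
        ≤ ∑ i ∈ (PF (QQ R)) ×ˢ (PF (QQ R)), ‖fc H i.1 * fc H i.2‖ ^ 2 :=
          Finset.sum_le_sum_of_subset_of_nonneg (Finset.filter_subset _ _) (fun _ _ _ => sq_nonneg _)
      _ = (∑ z ∈ PF (QQ R), ‖fc H z‖ ^ 2) ^ 2 := by
          rw [sq (∑ z ∈ PF (QQ R), ‖fc H z‖ ^ 2), Finset.sum_mul_sum, Finset.sum_product]
          refine Finset.sum_congr rfl fun z _ => Finset.sum_congr rfl fun w _ => ?_
          rw [norm_mul, mul_pow]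
      _ ≤ N ^ 2 := by
          refine pow_le_pow_left₀ (Finset.sum_nonneg fun _ _ => sq_nonneg _) ?_ 2
          unfold PF
          rw [Finset.sum_sigma]
          calc ∑ q ∈ QQ R, ∑ a ∈ Ico 1 q, ‖fc H ⟨q, a⟩‖ ^ 2 ≤ ∑ q ∈ QQ R, (1 : ℝ) := by
                refine Finset.sum_le_sum fun q hq => fex_par H q ?_
                unfold QQ at hq
                rw [mem_filter] at hq
                exact hq.2.pos
            _ = N := by rw [hN]; simp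
  have e3 : ∑ x ∈ Ioc X (2 * X), (O x) ^ 2 ≤ 10 * ((X : ℝ) + 16 * (R : ℝ) ^ 4) * N ^ 2 := by
    have e4 : X + X = 2 * X := by ring
    rw [e4] at hls
    calc ∑ x ∈ Ioc X (2 * X), (O x) ^ 2
        = ∑ x ∈ Ioc X (2 * X), ‖∑ i ∈ PP (QQ R), (fc H i.1 * fc H i.2) *
            ee ((x : ℝ) * (fr i.1 + fr i.2))‖ ^ 2 := Finset.sum_congr rfl fun x _ => (e1 x).symm
      _ ≤ 10 * ((X : ℝ) + 1 / (1 / (16 * (R : ℝ) ^ 4))) *
            ∑ i ∈ PP (QQ R), ‖fc H i.1 * fc H i.2‖ ^ 2 := hls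
      _ = 10 * ((X : ℝ) + 16 * (R : ℝ) ^ 4) * ∑ i ∈ PP (QQ R), ‖fc H i.1 * fc H i.2‖ ^ 2 := by
          rw [one_div_one_div]
      _ ≤ 10 * ((X : ℝ) + 16 * (R : ℝ) ^ 4) * N ^ 2 :=
          mul_le_mul_of_nonneg_left e2 (by positivity)
  have e5 : ∀ x ∈ Ioc X (2 * X), (G (QQ R) H x) ^ 4 ≤ 2 * N ^ 2 + 8 * (O x) ^ 2 := by
    intro x _
    have h1 : (G (QQ R) H x) ^ 2 = ∑ q ∈ QQ R, (ph H q x) ^ 2 + 2 * O x := four_sq (QQ R) (fun q => ph H q x)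
    set D : ℝ := ∑ q ∈ QQ R, (ph H q x) ^ 2 with hD
    have hD0 : 0 ≤ D := Finset.sum_nonneg fun _ _ => sq_nonneg _
    have hDN : D ≤ N := by
      calc D ≤ ∑ q ∈ QQ R, (1 : ℝ) := by
            refine Finset.sum_le_sum fun q hq => ?_
            unfold QQ at hq
            rw [mem_filter] at hq
            have h2 := ph_abs H q x hq.2.pos
            rw [← sq_abs]
            calc |ph H q x| ^ 2 ≤ 1 ^ 2 := pow_le_pow_left₀ (abs_nonneg _) h2 2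
              _ = 1 := one_pow 2
        _ = N := by rw [hN]; simp
    have h3 : D ^ 2 ≤ N ^ 2 := pow_le_pow_left₀ hD0 hDN 2
    calc (G (QQ R) H x) ^ 4 = ((G (QQ R) H x) ^ 2) ^ 2 := by ring
      _ = (D + 2 * O x) ^ 2 := by rw [h1]
      _ ≤ 2 * D ^ 2 + 8 * (O x) ^ 2 := by nlinarith [sq_nonneg (D - 2 * O x)]
      _ ≤ 2 * N ^ 2 + 8 * (O x) ^ 2 := by linarith
  have e6 : ∑ x ∈ Ioc X (2 * X), (2 * N ^ 2 : ℝ) = X * (2 * N ^ 2) := by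
    rw [Finset.sum_const, Nat.card_Ioc, nsmul_eq_mul]
    congr 2
    omega
  calc ∑ x ∈ Ioc X (2 * X), (G (QQ R) H x) ^ 4
      ≤ ∑ x ∈ Ioc X (2 * X), (2 * N ^ 2 + 8 * (O x) ^ 2) := Finset.sum_le_sum e5
    _ = X * (2 * N ^ 2) + 8 * ∑ x ∈ Ioc X (2 * X), (O x) ^ 2 := by
        rw [Finset.sum_add_distrib, e6, Finset.mul_sum]
    _ ≤ X * (2 * N ^ 2) + 8 * (10 * ((X : ℝ) + 16 * (R : ℝ) ^ 4) * N ^ 2) := by linarith
    _ ≤ 100 * ((X : ℝ) + 16 * (R : ℝ) ^ 4) * N ^ 2 := by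
        have h1 : 0 ≤ (X : ℝ) * N ^ 2 := by positivity
        have h2 : 0 ≤ (R : ℝ) ^ 4 * N ^ 2 := by positivity
        nlinarith

end Pool.Agent.H99.GB
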