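import Pool.Agent.H99.GB.Defs

/-!
# [H99 GB HOL]  Hoelder's inequality

PROOF. Cauchy twice: `(∑|g||e|)^2 ≤ (∑ g^2|e|)(∑|e|)`, `(∑ g^2|e|)^2 ≤ (∑ g^4|e|)(∑|e|) ≤ B (∑ g^4)(∑|e|)`.
-/

set_option autoImplicit false

namespace Pool.Agent.H99.GB

open Finset

theorem hol {ι : Type} (s : Finset ι) (g e : ι → ℝ) (B : ℝ) (hB : ∀ i ∈ s, |e i| ≤ B) :
    (∑ i ∈ s, g i * e i) ^ 4 ≤ B * (∑ i ∈ s, (g i) ^ 4) * (∑ i ∈ s, |e i|) ^ 3 := by
  set S1 : ℝ := ∑ i ∈ s, |e i| with hS1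
  set S2 : ℝ := ∑ i ∈ s, (g i) ^ 2 * |e i| with hS2
  have h0 : 0 ≤ S1 := Finset.sum_nonneg fun i _ => abs_nonneg _
  have h20 : 0 ≤ S2 := Finset.sum_nonneg fun i _ => by positivity
  have h1 : (∑ i ∈ s, g i * e i) ^ 2 ≤ S2 * S1 := by
    have := Finset.sum_mul_sq_le_sq_mul_sq s (fun i => g i * Real.sqrt |e i|)
      (fun i => SignType.sign (e i) * Real.sqrt |e i|)
    have e1 : ∀ i ∈ s, (g i * Real.sqrt |e i|) * ((SignType.sign (e i) : ℝ) * Real.sqrt |e i|) = g i * e i := by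
      intro i _
      have h2 : Real.sqrt |e i| * Real.sqrt |e i| = |e i| := Real.mul_self_sqrt (abs_nonneg _)
      have h3 : ((SignType.sign (e i) : ℝ)) * |e i| = e i := sign_mul_abs (e i)
      calc (g i * Real.sqrt |e i|) * ((SignType.sign (e i) : ℝ) * Real.sqrt |e i|)
          = g i * (((SignType.sign (e i) : ℝ)) * (Real.sqrt |e i| * Real.sqrt |e i|)) := by ring
        _ = _ := by rw [h2, h3]
    rw [Finset.sum_congr rfl e1] at this
    refine this.trans ?_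
    have e2 : ∑ i ∈ s, (g i * Real.sqrt |e i|) ^ 2 = S2 := by
      rw [hS2]
      refine Finset.sum_congr rfl fun i _ => ?_
      rw [mul_pow, Real.sq_sqrt (abs_nonneg _)]
    have e3 : ∑ i ∈ s, ((SignType.sign (e i) : ℝ) * Real.sqrt |e i|) ^ 2 ≤ S1 := by
      rw [hS1]
      refine Finset.sum_le_sum fun i _ => ?_
      rw [mul_pow, Real.sq_sqrt (abs_nonneg _)]
      have h4 : ((SignType.sign (e i) : ℝ)) ^ 2 ≤ 1 := by
        rcases lt_trichotomy (e i) 0 with h | h | h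
        · rw [sign_neg h]; norm_num
        · rw [h, sign_zero]; norm_num
        · rw [sign_pos h]; norm_num
      calc ((SignType.sign (e i) : ℝ)) ^ 2 * |e i| ≤ 1 * |e i| :=
            mul_le_mul_of_nonneg_right h4 (abs_nonneg _)
        _ = |e i| := one_mul _
    rw [e2]
    exact mul_le_mul_of_nonneg_left e3 h20
  have h5 : S2 ^ 2 ≤ (B * ∑ i ∈ s, (g i) ^ 4) * S1 := by
    have := Finset.sum_mul_sq_le_sq_mul_sq s (fun i => (g i) ^ 2 * Real.sqrt |e i|)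
      (fun i => Real.sqrt |e i|)
    have e1 : ∀ i ∈ s, ((g i) ^ 2 * Real.sqrt |e i|) * (Real.sqrt |e i|) = (g i) ^ 2 * |e i| := by
      intro i _
      rw [mul_assoc, Real.mul_self_sqrt (abs_nonneg _)]
    rw [Finset.sum_congr rfl e1] at this
    refine this.trans ?_
    have e3 : ∑ i ∈ s, (Real.sqrt |e i|) ^ 2 = S1 :=
      Finset.sum_congr rfl fun i _ => Real.sq_sqrt (abs_nonneg _)
    rw [e3]
    refine mul_le_mul_of_nonneg_right ?_ h0
    rw [Finset.mul_sum]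
    refine Finset.sum_le_sum fun i hi => ?_
    rw [mul_pow, Real.sq_sqrt (abs_nonneg _)]
    have h6 := mul_le_mul_of_nonneg_left (hB i hi) (by positivity : (0 : ℝ) ≤ (g i) ^ 4)
    calc ((g i) ^ 2) ^ 2 * |e i| = (g i) ^ 4 * |e i| := by ring
      _ ≤ (g i) ^ 4 * B := h6
      _ = B * (g i) ^ 4 := by ring
  calc (∑ i ∈ s, g i * e i) ^ 4 = ((∑ i ∈ s, g i * e i) ^ 2) ^ 2 := by ring
    _ ≤ (S2 * S1) ^ 2 := pow_le_pow_left₀ (sq_nonneg _) h1 2
    _ = S2 ^ 2 * S1 ^ 2 := by ring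
    _ ≤ ((B * ∑ i ∈ s, (g i) ^ 4) * S1) * S1 ^ 2 := mul_le_mul_of_nonneg_right h5 (sq_nonneg _)
    _ = B * (∑ i ∈ s, (g i) ^ 4) * S1 ^ 3 := by ring

end Pool.Agent.H99.GB
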