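import Pool.Agent.H99.GB.Defs

/-!
# [H99 GB HQ]  a good length

PROOF. `∑_{h<q} h (1 - h/q) = (q^2-1)/6`; an interval of length `L ≥ 4R ≥ 2q` contains at least `L/(2q)` blocks of `q` consecutive
numbers; all terms are `≥ 0`. So `∑_H cq H q/(q-1) ≥ L (q+1)/(12 q) ≥ L/12` for every `q ∈ QQ R`; sum over `q` and take the best `H`.
-/

set_option autoImplicit false

namespace Pool.Agent.H99.GB

open Finset Pool.Agent.H67.VS

private theorem blk (f : ℕ → ℝ) (q : ℕ) (hq : 0 < q) : ∀ B : ℕ,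
    ∑ H ∈ Ico B (B + q), f (H % q) = ∑ h ∈ range q, f h := by
  intro B
  induction B with
  | zero =>
    rw [zero_add, ← Finset.range_eq_Ico]
    refine sum_congr rfl fun h hh => ?_
    rw [mem_range] at hh
    rw [Nat.mod_eq_of_lt hh]
  | succ B ih =>
    have h1 : ∑ H ∈ Ico B (B + q + 1), f (H % q) = ∑ H ∈ Ico B (B + q), f (H % q) + f ((B + q) % q) :=
      sum_Ico_succ_top (by omega) _
    have h2 : ∑ H ∈ Ico B (B + q + 1), f (H % q) = f (B % q) + ∑ H ∈ Ico (B + 1) (B + q + 1), f (H % q) :=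
      Finset.sum_eq_sum_Ico_succ_bot (by omega) _
    rw [Nat.add_mod_right] at h1
    have h3 : B + 1 + q = B + q + 1 := by omega
    rw [h3]
    linarith

private theorem blks (f : ℕ → ℝ) (q : ℕ) (hq : 0 < q) (A : ℕ) : ∀ k : ℕ,
    ∑ H ∈ Ico A (A + k * q), f (H % q) = k * ∑ h ∈ range q, f h := by
  intro k
  induction k with
  | zero => simp
  | succ k ih =>
    have h1 := sum_Ico_consecutive (fun H => f (H % q)) (show A ≤ A + k * q by omega)
      (show A + k * q ≤ A + k * q + q by omega)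
    have h2 : A + (k + 1) * q = A + k * q + q := by ring
    rw [h2, ← h1, ih, blk f q hq]
    push_cast
    ring

private theorem sumc (q : ℝ) (hq : q ≠ 0) : ∀ n : ℕ,
    ∑ h ∈ range n, (h : ℝ) * (1 - h / q) = n * (n - 1) / 2 - (n - 1) * n * (2 * n - 1) / (6 * q) := by
  intro n
  induction n with
  | zero => simp
  | succ n ih =>
    rw [sum_range_succ, ih]
    push_cast
    field_simp
    ring

private theorem one (q A L : ℕ) (hq : 2 ≤ q) (hL : 2 * q ≤ L) :
    (L : ℝ) / 12 ≤ ∑ H ∈ Ico A (A + L), cq H q / ((q : ℝ) - 1) := by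
  have hq0 : (2 : ℝ) ≤ q := by exact_mod_cast hq
  have hnn : ∀ H : ℕ, 0 ≤ cq H q := by
    intro H
    unfold cq
    have h1 : H % q ≤ q := (Nat.mod_lt _ (by omega)).le
    have h2 : ((H % q : ℕ) : ℝ) ≤ q := by exact_mod_cast h1
    apply mul_nonneg (Nat.cast_nonneg _)
    rw [sub_nonneg, div_le_one (by linarith)]
    exact h2
  obtain ⟨k, hk⟩ : ∃ k, k = L / q := ⟨_, rfl⟩
  have hk1 : k * q ≤ L := by rw [hk]; exact Nat.div_mul_le_self _ _
  have hk2 : L < (k + 1) * q := by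
    rw [hk]
    have := Nat.lt_div_mul_add (a := L) (b := q) (by omega)
    nlinarith
  have hk3 : 2 ≤ k := by
    rw [hk, Nat.le_div_iff_mul_le (by omega)]
    exact hL
  have h1 : ∑ H ∈ Ico A (A + k * q), cq H q ≤ ∑ H ∈ Ico A (A + L), cq H q := by
    refine sum_le_sum_of_subset_of_nonneg ?_ fun H _ _ => hnn H
    apply Ico_subset_Ico_right
    omega
  have h2 : ∑ H ∈ Ico A (A + k * q), cq H q = k * (((q : ℝ) ^ 2 - 1) / 6) := by
    have h3 := blks (fun h => (h : ℝ) * (1 - h / q)) q (by omega) A k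
    have h4 := sumc (q : ℝ) (by linarith) q
    rw [h4] at h3
    refine (show ∑ H ∈ Ico A (A + k * q), cq H q = _ from h3).trans ?_
    field_simp
    ring
  have h3 : (L : ℝ) ≤ 2 * (k * q) := by
    have h4 : (L : ℝ) ≤ (k + 1) * q := by exact_mod_cast hk2.le
    have h5 : (2 : ℝ) ≤ k := by exact_mod_cast hk3
    nlinarith
  rw [← sum_div, le_div_iff₀ (by linarith)]
  refine le_trans ?_ h1
  rw [h2]
  have h6 : (0 : ℝ) ≤ k := Nat.cast_nonneg _
  nlinarith [mul_nonneg h6 (show (0 : ℝ) ≤ (q : ℝ) - 1 by linarith),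
    mul_le_mul_of_nonneg_right h3 (show (0 : ℝ) ≤ (q : ℝ) - 1 by linarith)]

theorem hq (R A L : ℕ) (hR : 1 ≤ R) (hL : 4 * R ≤ L) :
    ∃ H ∈ Ico A (A + L), ((QQ R).card : ℝ) / 24 ≤ ∑ q ∈ QQ R, cq H q / ((q : ℝ) - 1) := by
  have hLpos : (0 : ℝ) ≤ L := Nat.cast_nonneg _
  apply Finset.exists_le_of_sum_le (f := fun _ : ℕ => ((QQ R).card : ℝ) / 24)
    (g := fun H : ℕ => ∑ q ∈ QQ R, cq H q / ((q : ℝ) - 1))
  · rw [nonempty_Ico]
    omega
  · rw [sum_const, Nat.card_Ico, add_tsub_cancel_left, nsmul_eq_mul, sum_comm]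
    have h1 : ∑ q ∈ QQ R, (L : ℝ) / 12 ≤ ∑ q ∈ QQ R, ∑ H ∈ Ico A (A + L), cq H q / ((q : ℝ) - 1) := by
      refine sum_le_sum fun q hq => ?_
      unfold QQ at hq
      rw [mem_filter, mem_Ioc] at hq
      exact one q A L hq.2.two_le (by omega)
    refine le_trans ?_ h1
    rw [sum_const, nsmul_eq_mul]
    have h2 : (0 : ℝ) ≤ ((QQ R).card : ℝ) := Nat.cast_nonneg _
    nlinarith [mul_nonneg h2 hLpos]

end Pool.Agent.H99.GB
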