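import Pool.Agent.H99.GB.Per
import Pool.Agent.H24.AB.LS
import Pool.Agent.H24.AB.Four

/-!
# [H99 GB FEX]  Fourier expansion of `ph`

PROOF. `ph H q x` = number of multiples of `q` in `(x, x + H%q]` minus `(H%q)/q`, `mc_fourier`, `kk_sum` of `H24/AB/Four`.
-/

set_option autoImplicit false

namespace Pool.Agent.H99.GB

open Finset Pool.Agent.H67.VS Pool.Agent.H24.AB

theorem fex_ph (H q x : ℕ) (hq : 0 < q) :
    ph H q x = (mc q x (H % q) : ℝ) - ((H % q : ℕ) : ℝ) / q := by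
  have hq0 : (q : ℝ) ≠ 0 := by positivity
  have h1 : (mc q x (H % q) : ℝ) = (((x + H % q) / q : ℕ) : ℝ) - ((x / q : ℕ) : ℝ) := by
    have h2 : mc q x (H % q) + x / q = (x + H % q) / q := by
      unfold mc
      rw [← Nat.Ioc_filter_dvd_card_eq_div x q, ← Nat.Ioc_filter_dvd_card_eq_div (x + H % q) q,
        ← Finset.card_union_of_disjoint]
      · congr 1
        ext m
        simp only [mem_union, mem_filter, mem_Ioc]
        constructor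
        · rintro (⟨h, h'⟩ | ⟨h, h'⟩)
          · exact ⟨by omega, h'⟩
          · exact ⟨by omega, h'⟩
        · rintro ⟨h, h'⟩
          rcases Nat.lt_or_ge x m with h3 | h3
          · exact Or.inl ⟨⟨h3, h.2⟩, h'⟩
          · exact Or.inr ⟨⟨h.1, h3⟩, h'⟩
      · rw [Finset.disjoint_left]
        intro m hm hm'
        simp only [mem_filter, mem_Ioc] at hm hm'
        omega
    have h3 : ((mc q x (H % q) + x / q : ℕ) : ℝ) = (((x + H % q) / q : ℕ) : ℝ) := by rw [h2]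
    push_cast at h3 ⊢
    linarith
  rw [h1]
  unfold ph
  have e1 : (x + H) % q = (x + H % q) % q := by rw [Nat.add_mod, Nat.add_mod x (H % q), Nat.mod_mod]
  rw [e1]
  have e2 : ((x % q : ℕ) : ℝ) = (x : ℝ) - q * ((x / q : ℕ) : ℝ) := by
    have := Nat.div_add_mod x q
    have h4 : ((q * (x / q) + x % q : ℕ) : ℝ) = (x : ℝ) := by rw [this]
    push_cast at h4 ⊢
    linarith
  have e3 : (((x + H % q) % q : ℕ) : ℝ) = (x : ℝ) + ((H % q : ℕ) : ℝ) - q * (((x + H % q) / q : ℕ) : ℝ) := by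
    have := Nat.div_add_mod (x + H % q) q
    have h4 : ((q * ((x + H % q) / q) + (x + H % q) % q : ℕ) : ℝ) = ((x + H % q : ℕ) : ℝ) := by rw [this]
    rw [Nat.cast_add, Nat.cast_mul, Nat.cast_add] at h4
    linarith
  rw [e2, e3]
  field_simp
  ring

/-- the Fourier coefficients -/
noncomputable def fc (H : ℕ) (z : Σ _ : ℕ, ℕ) : ℂ := 1 / (z.1 : ℂ) * KK (H % z.1) ((z.2 : ℝ) / z.1)

theorem fex_exp (H q x : ℕ) (hq : 0 < q) :
    ((ph H q x : ℝ) : ℂ) = ∑ a ∈ Ico 1 q, fc H ⟨q, a⟩ * ee ((x : ℝ) * ((a : ℝ) / q)) := by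
  rw [fex_ph H q x hq, mc_fourier q x (H % q) hq, Finset.mul_sum]
  refine Finset.sum_congr rfl fun a _ => ?_
  unfold fc
  ring

theorem fex_par (H q : ℕ) (hq : 0 < q) : ∑ a ∈ Ico 1 q, ‖fc H ⟨q, a⟩‖ ^ 2 ≤ 1 := by
  have hq0 : (0 : ℝ) < q := by exact_mod_cast hq
  have h1 : ∀ a ∈ Ico 1 q, ‖fc H ⟨q, a⟩‖ ^ 2 = 1 / (q : ℝ) ^ 2 * ‖KK (H % q) ((a : ℝ) / q)‖ ^ 2 := by
    intro a _
    unfold fc
    rw [norm_mul, mul_pow, norm_div, norm_one]
    simp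
  rw [Finset.sum_congr rfl h1, ← Finset.mul_sum]
  have h2 := kk_sum q (H % q) hq
  have h3 : ((H % q : ℕ) : ℝ) ≤ q := by exact_mod_cast (Nat.mod_lt _ hq).le
  calc 1 / (q : ℝ) ^ 2 * ∑ a ∈ Ico 1 q, ‖KK (H % q) ((a : ℝ) / q)‖ ^ 2
      ≤ 1 / (q : ℝ) ^ 2 * ((q : ℝ) * q) := by
        refine mul_le_mul_of_nonneg_left (h2.trans ?_) (by positivity)
        exact mul_le_mul_of_nonneg_left h3 hq0.le
    _ = 1 := by field_simp

theorem fex (H q : ℕ) (hq : 1 ≤ q) : ∃ c : ℕ → ℂ,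
    (∀ x : ℕ, ((ph H q x : ℝ) : ℂ) = ∑ j ∈ Ico 1 q, c j * ee ((x : ℝ) * ((j : ℝ) / q))) ∧
      ∑ j ∈ Ico 1 q, ‖c j‖ ^ 2 ≤ 1 :=
  ⟨fun j => fc H ⟨q, j⟩, fun x => fex_exp H q x hq, fex_par H q hq⟩

end Pool.Agent.H99.GB
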