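import Pool.Agent.H67.VU.Defs
import Pool.Agent.H48.WN.Defs

/-!
# [H99 GB DEFS]  MP_31d0eb_nt, theorem GB: the mean error of primes in intervals of length `X^θ`, `θ < 1/2`

THEOREM GB. For `0 < θ < 1/2` and intervals of length about `X^θ` the mean of `|π(x+H) - π(x) - ∫ dt/log t|`,
`X < x ≤ 2X`, is at least `X^(min(θ, 1/2-θ)/3 - ε)`.

IDEA. `R = X^ρ`, `ρ < min(θ, 1/4)`, `Q` = primes in `(R, 2R]`, `φ_q(x)` = number of multiples of `q` in
`(x, x+H]` minus `H/q` (period `q`, mean `0`). The covariance of `φ_q` with the number of primes in `(x, x+H]` is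
`- h(1-h/q)/(q-1)` times the number of primes (`h = H mod q`), because a prime is not a multiple of `q`: all
covariances have the SAME SIGN; the error term is a mean value of character sums over primes. `G = ∑_q φ_q` has
fourth moment `≤ C X |Q|^2` (additive large sieve with the fractions `k1/q1 + k2/q2`, `R < X^(1/4)`).
Hoelder's inequality with `|error| ≤ H`.
-/

set_option autoImplicit false

namespace Pool.Agent.H99.GB

open Finset Pool.Agent.H67.VS

/-- error term with logarithmic weights: `∑_{n < p ≤ n+H} log p - H` -/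
noncomputable def ET (n H : ℕ) : ℝ := (∑ m ∈ Ioc n (n + H), pl m) - H

/-- number of multiples of `q` in `(x, x+H]` minus `H/q` -/
noncomputable def ph (H q x : ℕ) : ℝ := (((x % q : ℕ) : ℝ) - (((x + H) % q : ℕ) : ℝ)) / q

/-- the test function -/
noncomputable def G (Q : Finset ℕ) (H x : ℕ) : ℝ := ∑ q ∈ Q, ph H q x

/-- `h (1 - h/q)`, `h = H mod q` -/
noncomputable def cq (H q : ℕ) : ℝ := ((H % q : ℕ) : ℝ) * (1 - ((H % q : ℕ) : ℝ) / q)

/-- the primes in `(R, 2R]` -/
def QQ (R : ℕ) : Finset ℕ := (Ioc R (2 * R)).filter Nat.Prime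

/-- the sum of all nontrivial character sums over primes of modulus `q` -/
noncomputable def SC (X q : ℕ) : ℝ := by
  classical
  exact ∑ χ ∈ (univ : Finset (DirichletCharacter ℂ q)).filter (fun χ => χ ≠ 1),
    ‖ThC X (2 * X) Pool.Agent.H67.VU.onef χ‖

end Pool.Agent.H99.GB
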