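import Pool.Agent.H99.GB.Defs

/-!
# [H99 GB CHI]  a character on differences

PROOF. Cauchy's inequality and completion: `|∑_i ∑_j χ(i-j)|^2 ≤ h ∑_{i mod q} |∑_{j<h} χ(i-j)|^2`
`= h ∑_{j,j'} ∑_i χ(i-j) conj χ(i-j')`, the inner sum is `q-1` for `j = j'` and `-1` otherwise (`jacobiSum_nontrivial_inv`),
so the total is `h (h (q-1) - h (h-1)) = h^2 (q-h) ≤ h^2 q`.
-/

set_option autoImplicit false

namespace Pool.Agent.H99.GB

open Finset Pool.Agent.H67.VS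

private lemma chi_conj {q : ℕ} [Fact q.Prime] (χ : DirichletCharacter ℂ q) (x : ZMod q) :
    (starRingEnd ℂ) (χ x) = χ⁻¹ x := by
  rw [starRingEnd_apply, MulChar.star_apply']

private lemma chi_eq {q : ℕ} [Fact q.Prime] (χ : DirichletCharacter ℂ q) (a : ZMod q) :
    ∑ x : ZMod q, χ (x - a) * χ⁻¹ (x - a) = (q : ℂ) - 1 := by
  classical
  have h1 : ∑ x : ZMod q, χ (x - a) * χ⁻¹ (x - a) = ∑ x : ZMod q, χ x * χ⁻¹ x :=
    Fintype.sum_equiv (Equiv.subRight a) _ _ (fun x => rfl)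
  rw [h1]
  have h2 : ∀ x : ZMod q, χ x * χ⁻¹ x = 1 - (if x = 0 then (1 : ℂ) else 0) := by
    intro x
    by_cases hx : x = 0
    · rw [if_pos hx, hx, MulChar.map_zero]
      ring
    · rw [if_neg hx, ← MulChar.mul_apply, mul_inv_cancel, MulChar.one_apply (IsUnit.mk0 x hx)]
      ring
  rw [Finset.sum_congr rfl fun x _ => h2 x, Finset.sum_sub_distrib]
  simp [ZMod.card]

private lemma chi_ne {q : ℕ} [Fact q.Prime] (χ : DirichletCharacter ℂ q) (hχ : χ ≠ 1) (a b : ZMod q)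
    (hab : a ≠ b) : ∑ x : ZMod q, χ (x - a) * χ⁻¹ (x - b) = -1 := by
  have hd : b - a ≠ 0 := sub_ne_zero.2 hab.symm
  have h1 : ∑ x : ZMod q, χ (x - a) * χ⁻¹ (x - b) =
      ∑ y : ZMod q, χ ((b - a) * y) * χ⁻¹ (-((b - a) * (1 - y))) := by
    symm
    refine Fintype.sum_equiv ((Equiv.mulLeft₀ (b - a) hd).trans (Equiv.addLeft a)) _ _ (fun y => ?_)
    have e1 : ((Equiv.mulLeft₀ (b - a) hd).trans (Equiv.addLeft a)) y = a + (b - a) * y := rfl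
    rw [e1]
    congr 2
    · ring
    · ring
  rw [h1]
  have h2 : ∀ y : ZMod q, χ ((b - a) * y) * χ⁻¹ (-((b - a) * (1 - y))) =
      χ⁻¹ (-1) * (χ y * χ⁻¹ (1 - y)) := by
    intro y
    have e1 : -((b - a) * (1 - y)) = (-1) * ((b - a) * (1 - y)) := by ring
    rw [e1, map_mul, map_mul, map_mul]
    have e2 : χ (b - a) * χ⁻¹ (b - a) = 1 := by
      rw [← MulChar.mul_apply, mul_inv_cancel, MulChar.one_apply (IsUnit.mk0 _ hd)]
    calc χ (b - a) * χ y * (χ⁻¹ (-1) * (χ⁻¹ (b - a) * χ⁻¹ (1 - y)))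
        = (χ (b - a) * χ⁻¹ (b - a)) * (χ⁻¹ (-1) * (χ y * χ⁻¹ (1 - y))) := by ring
      _ = _ := by rw [e2, one_mul]
  rw [Finset.sum_congr rfl fun y _ => h2 y, ← Finset.mul_sum]
  have h3 := jacobiSum_nontrivial_inv (χ := χ) hχ
  unfold jacobiSum at h3
  rw [h3]
  have e3 : χ⁻¹ (-1) * χ (-1) = 1 := by
    rw [← MulChar.mul_apply, inv_mul_cancel, MulChar.one_apply]
    exact isUnit_one.neg
  rw [mul_neg, e3]

theorem chi_bd {q : ℕ} [Fact q.Prime] (χ : DirichletCharacter ℂ q) (hχ : χ ≠ 1) (h : ℕ) (hh : h ≤ q) :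
    ‖∑ i ∈ Icc 1 h, ∑ j ∈ Icc 1 h, χ (((i : ℕ) : ZMod q) - ((j : ℕ) : ZMod q))‖ ≤ h * Real.sqrt q := by
  classical
  set f : ZMod q → ℂ := fun x => ∑ j ∈ Icc 1 h, χ (x - ((j : ℕ) : ZMod q)) with hf
  have hinj : ∀ i ∈ Icc 1 h, ∀ j ∈ Icc 1 h, ((i : ℕ) : ZMod q) = ((j : ℕ) : ZMod q) → i = j := by
    intro i hi j hj hij
    rw [mem_Icc] at hi hj
    rw [ZMod.natCast_eq_natCast_iff] at hij
    have h1 : i - 1 ≡ j - 1 [MOD q] := by
      have h2 : (i - 1) + 1 ≡ (j - 1) + 1 [MOD q] := by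
        rw [Nat.sub_add_cancel hi.1, Nat.sub_add_cancel hj.1]
        exact hij
      exact Nat.ModEq.add_right_cancel' 1 h2
    have h3 := Nat.ModEq.eq_of_lt_of_lt h1 (by omega) (by omega)
    omega
  have hsq : ∑ x : ZMod q, ‖f x‖ ^ 2 = (h : ℝ) * q - (h : ℝ) * h := by
    have h1 : ((∑ x : ZMod q, ‖f x‖ ^ 2 : ℝ) : ℂ) = (h : ℂ) * q - (h : ℂ) * h := by
      push_cast
      have h2 : ∀ x : ZMod q, ((‖f x‖ : ℂ)) ^ 2 =
          ∑ j ∈ Icc 1 h, ∑ j' ∈ Icc 1 h, χ (x - ((j : ℕ) : ZMod q)) * χ⁻¹ (x - ((j' : ℕ) : ZMod q)) := by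
        intro x
        have h3 : ((‖f x‖ : ℂ)) ^ 2 = f x * (starRingEnd ℂ) (f x) := by
          rw [Complex.mul_conj, Complex.normSq_eq_norm_sq]
          push_cast
          rfl
        rw [h3, hf]
        simp only [map_sum, chi_conj]
        rw [Finset.sum_mul_sum]
      rw [Finset.sum_congr rfl fun x _ => h2 x, Finset.sum_comm]
      have h4 : ∀ j ∈ Icc 1 h, ∑ x : ZMod q, ∑ j' ∈ Icc 1 h,
          χ (x - ((j : ℕ) : ZMod q)) * χ⁻¹ (x - ((j' : ℕ) : ZMod q)) = (q : ℂ) - h := by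
        intro j hj
        rw [Finset.sum_comm]
        have h5 : ∀ j' ∈ Icc 1 h, ∑ x : ZMod q, χ (x - ((j : ℕ) : ZMod q)) * χ⁻¹ (x - ((j' : ℕ) : ZMod q)) =
            (if j = j' then (q : ℂ) else 0) - 1 := by
          intro j' hj'
          by_cases hjj : j = j'
          · rw [if_pos hjj, ← hjj, chi_eq]
          · rw [if_neg hjj, chi_ne χ hχ _ _ (fun h => hjj (hinj j hj j' hj' h))]
            ring
        rw [Finset.sum_congr rfl h5, Finset.sum_sub_distrib, Finset.sum_ite_eq, if_pos hj]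
        simp
      rw [Finset.sum_congr rfl h4]
      simp only [Finset.sum_const, Nat.card_Icc, Nat.add_sub_cancel, nsmul_eq_mul]
      ring
    exact_mod_cast h1
  have hsub : ∑ i ∈ Icc 1 h, ‖f ((i : ℕ) : ZMod q)‖ ^ 2 ≤ ∑ x : ZMod q, ‖f x‖ ^ 2 := by
    rw [← Finset.sum_image (f := fun x => ‖f x‖ ^ 2) (g := fun i : ℕ => ((i : ℕ) : ZMod q))
      (fun i hi j hj hij => hinj i hi j hj hij)]
    exact Finset.sum_le_sum_of_subset_of_nonneg (Finset.subset_univ _) (fun x _ _ => sq_nonneg _)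
  have hcs : (∑ i ∈ Icc 1 h, ‖f ((i : ℕ) : ZMod q)‖) ^ 2 ≤
      (h : ℝ) * ∑ i ∈ Icc 1 h, ‖f ((i : ℕ) : ZMod q)‖ ^ 2 := by
    have := sq_sum_le_card_mul_sum_sq (s := Icc 1 h) (f := fun i => ‖f ((i : ℕ) : ZMod q)‖)
    simpa using this
  have hh0 : (0 : ℝ) ≤ h := Nat.cast_nonneg h
  have h6 : (∑ i ∈ Icc 1 h, ‖f ((i : ℕ) : ZMod q)‖) ^ 2 ≤ ((h : ℝ) * Real.sqrt q) ^ 2 := by
    calc (∑ i ∈ Icc 1 h, ‖f ((i : ℕ) : ZMod q)‖) ^ 2
        ≤ (h : ℝ) * ∑ i ∈ Icc 1 h, ‖f ((i : ℕ) : ZMod q)‖ ^ 2 := hcs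
      _ ≤ (h : ℝ) * ((h : ℝ) * q - (h : ℝ) * h) := by
          rw [← hsq]
          exact mul_le_mul_of_nonneg_left hsub hh0
      _ ≤ (h : ℝ) * ((h : ℝ) * q) := by
          apply mul_le_mul_of_nonneg_left _ hh0
          nlinarith
      _ = ((h : ℝ) * Real.sqrt q) ^ 2 := by
          rw [mul_pow, Real.sq_sqrt (Nat.cast_nonneg q)]
          ring
  have h7 := abs_le_of_sq_le_sq h6 (by positivity)
  calc ‖∑ i ∈ Icc 1 h, ∑ j ∈ Icc 1 h, χ (((i : ℕ) : ZMod q) - ((j : ℕ) : ZMod q))‖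
      = ‖∑ i ∈ Icc 1 h, f ((i : ℕ) : ZMod q)‖ := rfl
    _ ≤ ∑ i ∈ Icc 1 h, ‖f ((i : ℕ) : ZMod q)‖ := norm_sum_le _ _
    _ ≤ (h : ℝ) * Real.sqrt q := (le_abs_self _).trans h7

end Pool.Agent.H99.GB
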