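import Pool.Agent.H99.GB.Chi

/-!
# [H99 GB PER]  periodic functions with mean `0`; the function `ph` on `ZMod q`
-/

set_option autoImplicit false

namespace Pool.Agent.H99.GB

open Finset Pool.Agent.H67.VS

/-- `ph` as a function on `ZMod q`, `h = H mod q` -/
noncomputable def phz (q h : ℕ) (y : ZMod q) : ℝ :=
  (∑ i ∈ Icc 1 h, if y + ((i : ℕ) : ZMod q) = 0 then (1 : ℝ) else 0) - (h : ℝ) / q

theorem ph_eq (H q x : ℕ) (hq : 0 < q) : ph H q x = phz q (H % q) (x : ZMod q) := by
  have hq0 : (q : ℝ) ≠ 0 := by positivity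
  have hr : x % q < q := Nat.mod_lt _ hq
  have hh : H % q < q := Nat.mod_lt _ hq
  unfold ph phz
  have h1 : ∀ i ∈ Icc 1 (H % q), (if (x : ZMod q) + ((i : ℕ) : ZMod q) = 0 then (1 : ℝ) else 0) =
      if i = q - x % q then (1 : ℝ) else 0 := by
    intro i hi
    rw [mem_Icc] at hi
    have h2 : ((x : ZMod q) + ((i : ℕ) : ZMod q) = 0) ↔ i = q - x % q := by
      have h3 : (x : ZMod q) + ((i : ℕ) : ZMod q) = ((x % q + i : ℕ) : ZMod q) := by
        push_cast
        rw [ZMod.natCast_mod]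
      rw [h3, ZMod.natCast_eq_zero_iff]
      constructor
      · rintro ⟨c, hc⟩
        have hc1 : c = 1 := by
          rcases Nat.lt_or_ge c 1 with h | h
          · have : c = 0 := by omega
            subst this
            omega
          · rcases Nat.lt_or_ge 1 c with h' | h'
            · have : q * 2 ≤ q * c := Nat.mul_le_mul_left q h'
              omega
            · omega
        subst hc1
        omega
      · intro h
        exact ⟨1, by omega⟩
    simp only [h2]
  rw [Finset.sum_congr rfl h1, Finset.sum_ite_eq']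
  have h4 : (x + H) % q = if x % q + H % q < q then x % q + H % q else x % q + H % q - q := by
    rw [Nat.add_mod]
    split_ifs with h
    · exact Nat.mod_eq_of_lt h
    · rw [Nat.mod_eq_sub_mod (by omega), Nat.mod_eq_of_lt (by omega)]
  rw [h4]
  split_ifs with h5 h6 h6
  · rw [mem_Icc] at h6
    omega
  · push_cast
    field_simp
    ring
  · rw [Nat.cast_sub (by omega)]
    push_cast
    field_simp
    ring
  · rw [mem_Icc] at h6
    omega

theorem ph_abs (H q x : ℕ) (hq : 0 < q) : |ph H q x| ≤ 1 := by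
  have hq0 : (0 : ℝ) < q := by exact_mod_cast hq
  have h1 : ((x % q : ℕ) : ℝ) < q := by exact_mod_cast Nat.mod_lt x hq
  have h2 : (((x + H) % q : ℕ) : ℝ) < q := by exact_mod_cast Nat.mod_lt (x + H) hq
  have h3 : (0 : ℝ) ≤ ((x % q : ℕ) : ℝ) := Nat.cast_nonneg _
  have h4 : (0 : ℝ) ≤ (((x + H) % q : ℕ) : ℝ) := Nat.cast_nonneg _
  unfold ph
  rw [abs_div, abs_of_pos hq0, div_le_one hq0, abs_le]
  constructor <;> linarith

theorem phz_abs (q h : ℕ) (hh : h < q) (y : ZMod q) : |phz q h y| ≤ 1 := by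
  haveI : NeZero q := ⟨by omega⟩
  have h1 := ph_eq h q y.val (by omega)
  rw [ZMod.natCast_zmod_val, Nat.mod_eq_of_lt hh] at h1
  rw [← h1]
  exact ph_abs _ _ _ (by omega)

theorem phz_sum (q h : ℕ) (hq : 0 < q) [NeZero q] : ∑ y : ZMod q, phz q h y = 0 := by
  have hq0 : (q : ℝ) ≠ 0 := by positivity
  unfold phz
  rw [Finset.sum_sub_distrib, Finset.sum_comm]
  have h1 : ∀ i ∈ Icc 1 h, ∑ y : ZMod q, (if y + ((i : ℕ) : ZMod q) = 0 then (1 : ℝ) else 0) = 1 := by
    intro i _
    have h2 : ∀ y : ZMod q, (y + ((i : ℕ) : ZMod q) = 0) ↔ y = -((i : ℕ) : ZMod q) :=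
      fun y => eq_neg_iff_add_eq_zero.symm
    simp only [h2]
    rw [Finset.sum_ite_eq' univ, if_pos (mem_univ _)]
  rw [Finset.sum_congr rfl h1]
  simp only [sum_const, Nat.card_Icc, Nat.add_sub_cancel, nsmul_eq_mul, card_univ, ZMod.card]
  field_simp
  ring

theorem per_block {q : ℕ} [NeZero q] (F : ZMod q → ℝ) (hF : ∑ y : ZMod q, F y = 0) (a k : ℕ) :
    ∑ x ∈ Ico a (a + q * k), F (x : ZMod q) = 0 := by
  induction k with
  | zero => simp
  | succ k ih =>
    have h1 : a + q * (k + 1) = (a + q * k) + q := by ring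
    rw [h1, ← Finset.sum_Ico_consecutive (fun x : ℕ => F (x : ZMod q)) (by omega : a ≤ a + q * k)
      (by omega : a + q * k ≤ a + q * k + q), ih, zero_add, Finset.sum_Ico_eq_sum_range]
    rw [show a + q * k + q - (a + q * k) = q by omega, ← hF]
    refine Finset.sum_bij (fun j _ => ((a + q * k + j : ℕ) : ZMod q)) (fun _ _ => Finset.mem_univ _) ?_ ?_
      (fun _ _ => rfl)
    · intro i hi j hj hij
      rw [ZMod.natCast_eq_natCast_iff] at hij
      have h2 : i ≡ j [MOD q] := Nat.ModEq.add_left_cancel' (a + q * k) hij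
      rw [Finset.mem_range] at hi hj
      exact Nat.ModEq.eq_of_lt_of_lt h2 hi hj
    · intro x _
      refine ⟨(x - ((a + q * k : ℕ) : ZMod q)).val, ?_, ?_⟩
      · rw [Finset.mem_range]; exact ZMod.val_lt _
      · rw [Nat.cast_add, ZMod.natCast_zmod_val]
        ring

theorem per_bd {q : ℕ} [NeZero q] (F : ZMod q → ℝ) (hF : ∑ y : ZMod q, F y = 0)
    (hb : ∀ y, |F y| ≤ 1) (a b : ℕ) : |∑ x ∈ Ico a b, F (x : ZMod q)| ≤ q := by
  have hq : 0 < q := Nat.pos_of_ne_zero (NeZero.ne q)
  rcases Nat.lt_or_ge b a with h | h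
  · rw [Finset.Ico_eq_empty (by omega)]
    simp
  · have h1 : a + q * ((b - a) / q) ≤ b := by
      have := Nat.mul_div_le (b - a) q
      omega
    rw [← Finset.sum_Ico_consecutive (fun x : ℕ => F (x : ZMod q))
      (by omega : a ≤ a + q * ((b - a) / q)) h1, per_block F hF, zero_add]
    refine (Finset.abs_sum_le_sum_abs _ _).trans ((Finset.sum_le_sum fun i _ => hb _).trans ?_)
    simp only [sum_const, Nat.card_Ico, nsmul_eq_mul, mul_one]
    have h2 : b - (a + q * ((b - a) / q)) ≤ q := by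
      have h3 := Nat.div_add_mod (b - a) q
      have h4 := Nat.mod_lt (b - a) hq
      omega
    exact_mod_cast h2

/-- the full sum over `(m-H .. m-1)` -/
theorem per_full (q H m : ℕ) [NeZero q] (hm : H ≤ m) :
    ∑ x ∈ Ico (m - H) m, phz q (H % q) (x : ZMod q) =
      ∑ j ∈ Icc 1 (H % q), phz q (H % q) ((m : ZMod q) - ((j : ℕ) : ZMod q)) := by
  have hq : 0 < q := Nat.pos_of_ne_zero (NeZero.ne q)
  have h1 := Nat.div_add_mod H q
  have h2 : m - H + q * (H / q) = m - H % q := by omega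
  rw [← Finset.sum_Ico_consecutive (fun x : ℕ => phz q (H % q) (x : ZMod q))
      (by omega : m - H ≤ m - H + q * (H / q)) (by omega), per_block _ (phz_sum q _ hq), zero_add, h2]
  refine Finset.sum_bij' (fun x _ => m - x) (fun j _ => m - j) ?_ ?_ ?_ ?_ ?_
  · intro x hx
    rw [mem_Ico] at hx
    rw [mem_Icc]
    omega
  · intro j hj
    rw [mem_Icc] at hj
    rw [mem_Ico]
    omega
  · intro x hx
    rw [mem_Ico] at hx
    omega
  · intro j hj
    rw [mem_Icc] at hj
    omega
  · intro x hx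
    rw [mem_Ico] at hx
    rw [Nat.cast_sub (by omega)]
    congr 1
    ring

end Pool.Agent.H99.GB
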